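import Pool.Agent.H202Z.Du.KVal

namespace Pool.Agent.H202Z.Du

lemma mem_walks : ∀ (k : ℕ) (l : List ℤ), l.length = k + 1 → l.getLast? = some 0 → gam l ≠ 0 →
    l ∈ walks k := by
  intro k
  induction k with
  | zero =>
    intro l h1 h2 _
    match l, h1 with
    | [a], _ =>
      simp at h2
      simp [walks, h2]
  | succ k ih =>
    intro l h1 h2 h3
    match l, h1 with
    | a :: b :: l, h1 =>
      have h4 : gam (b :: l) ≠ 0 := fun h => h3 (by simp [gam, h])
      have h5 : GZ a b ≠ 0 := fun h => h3 (by simp [gam, h])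
      have h6 := ih (b :: l) (by simpa using h1) (by simpa using h2) h4
      simp only [walks, List.mem_flatMap]
      refine ⟨b :: l, h6, ?_⟩
      simp only [ext3, List.mem_cons, List.cons.injEq, and_true, List.not_mem_nil, or_false]
      unfold GZ at h5
      split_ifs at h5 with h7 h8
      · omega
      · omega
      · exact absurd rfl h5

lemma gam_shift (c : ℤ) : ∀ l : List ℤ, gam (l.map (fun a => a - c)) = gam l := by
  intro l
  induction l with
  | nil => rfl
  | cons a l ih =>
    cases l with
    | nil => rfl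
    | cons b l =>
      simp only [List.map_cons, gam] at ih ⊢
      rw [ih]
      congr 1
      unfold GZ
      have e1 : a - c = b - c ↔ a = b := by omega
      have e2 : (a - c = b - c + 1 ∨ b - c = a - c + 1) ↔ (a = b + 1 ∨ b = a + 1) := by omega
      simp only [e1, e2]

lemma card_pattern {m N : ℕ} (s : Fin m → ℤ) :
    (Finset.univ.filter (fun j : Fin m → Fin N => ∀ i i', j i = j i' ↔ s i = s i')).card ≤
      N.descFactorial (Finset.univ.image s).card := by
  classical
  have hex : ∀ t : (Finset.univ.image s), ∃ i, s i = t := fun t => by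
    obtain ⟨i, -, hi⟩ := Finset.mem_image.1 t.2
    exact ⟨i, hi⟩
  choose c hc using hex
  let φ : (Finset.univ.filter (fun j : Fin m → Fin N => ∀ i i', j i = j i' ↔ s i = s i')) →
      ((Finset.univ.image s) ↪ Fin N) := fun j =>
    ⟨fun t => j.1 (c t), fun t t' h => by
      have := ((Finset.mem_filter.1 j.2).2 _ _).1 h
      rw [hc, hc] at this
      exact Subtype.ext this⟩
  have hφ : Function.Injective φ := by
    intro j j' h
    apply Subtype.ext
    funext i
    let t : (Finset.univ.image s) := ⟨s i, Finset.mem_image_of_mem _ (Finset.mem_univ i)⟩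
    have h1 : j.1 i = j.1 (c t) := ((Finset.mem_filter.1 j.2).2 _ _).2 (hc t).symm
    have h2 : j'.1 i = j'.1 (c t) := ((Finset.mem_filter.1 j'.2).2 _ _).2 (hc t).symm
    have h3 : φ j t = φ j' t := by rw [h]
    rw [h1, h2]
    exact h3
  have := Fintype.card_le_of_injective φ hφ
  rw [Fintype.card_embedding_eq, Fintype.card_coe, Fintype.card_coe, Fintype.card_fin] at this
  exact this

/-- positions of a word along a permutation -/
def posl (π : Equiv.Perm (Fin 9)) (l : List (Fin 9)) : List ℤ :=
  l.map (fun a => (((π.symm a : Fin 9) : ℕ) : ℤ))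

noncomputable def F (j : Fin 9 → Fin 9) : ℕ :=
  Finset.univ.sup (fun π : Equiv.Perm (Fin 9) => gam (posl π (List.ofFn j)))

lemma F_le (j : Fin 9 → Fin 9) :
    F j ≤ ((walks 8).map (fun l =>
      if ∀ i i' : Fin 9, j i = j i' ↔ l.getD i 0 = l.getD i' 0 then gam l else 0)).sum := by
  unfold F
  refine Finset.sup_le fun π _ => ?_
  by_cases h0 : gam (posl π (List.ofFn j)) = 0
  · rw [h0]; exact Nat.zero_le _
  set c : ℤ := (((π.symm (j 8) : Fin 9) : ℕ) : ℤ) with hc
  set l : List ℤ := (posl π (List.ofFn j)).map (fun a => a - c) with hl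
  have hg : gam l = gam (posl π (List.ofFn j)) := gam_shift c _
  have hmem : l ∈ walks 8 := by
    refine mem_walks 8 l (by simp [hl, posl]) ?_ (by rw [hg]; exact h0)
    simp [hl, posl, List.ofFn_succ, hc]
  have hget : ∀ i : Fin 9, l.getD i 0 = (((π.symm (j i) : Fin 9) : ℕ) : ℤ) - c := by
    intro i
    fin_cases i <;> simp [hl, posl, List.ofFn_succ]
  have hcond : ∀ i i' : Fin 9, j i = j i' ↔ l.getD i 0 = l.getD i' 0 := by
    intro i i'
    rw [hget, hget, sub_left_inj, Nat.cast_inj, Fin.val_inj, π.symm.injective.eq_iff]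
  rw [← hg]
  refine List.le_sum_of_mem ?_
  refine List.mem_map.2 ⟨l, hmem, ?_⟩
  rw [if_pos hcond]

lemma sum_F_le : ∑ j, F j ≤ K := by
  refine (Finset.sum_le_sum fun j _ => F_le j).trans ?_
  unfold K
  generalize walks 8 = L
  induction L with
  | nil => simp
  | cons l L ih =>
    simp only [List.map_cons, List.sum_cons, Finset.sum_add_distrib]
    refine Nat.add_le_add ?_ ih
    rw [← Finset.sum_filter, Finset.sum_const, smul_eq_mul, mul_comm]
    exact Nat.mul_le_mul_left _ (card_pattern (fun i : Fin 9 => l.getD i 0))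

end Pool.Agent.H202Z.Du
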