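import Mathlib

namespace Pool.Agent.H202Z.Du

/-- The spectral norm: the operator norm of the matrix acting on Euclidean space `ℂ^d`. -/
noncomputable def specNorm {d : ℕ} (M : Matrix (Fin d) (Fin d) ℂ) : ℝ :=
  ‖Matrix.toEuclideanCLM (n := Fin d) (𝕜 := ℂ) M‖

/-- The product `A (j 1) * A (j 2) * ... * A (j m)`. -/
noncomputable def wordProd {n d m : ℕ} (A : Fin n → Matrix (Fin d) (Fin d) ℂ)
    (j : Fin m → Fin n) : Matrix (Fin d) (Fin d) ℂ :=
  (List.ofFn (fun i => A (j i))).prod

/-- The with-replacement average of the norms of the products of length `m`. -/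
noncomputable def W {n d : ℕ} (m : ℕ) (A : Fin n → Matrix (Fin d) (Fin d) ℂ) : ℝ :=
  (1 / (n : ℝ) ^ m) * ∑ j : Fin m → Fin n, specNorm (wordProd A j)

/-- The without-replacement average of the norms of the products of length `m`. -/
noncomputable def D {n d : ℕ} (m : ℕ) (A : Fin n → Matrix (Fin d) (Fin d) ℂ) : ℝ :=
  (((n - m).factorial : ℝ) / (n.factorial : ℝ)) *
    ∑ j ∈ Finset.univ.filter (fun j : Fin m → Fin n => Function.Injective j),
      specNorm (wordProd A j)

end Pool.Agent.H202Z.Du
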