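import Mathlib

namespace Pool.Agent.H202Z.Du

def GZ (a b : ℤ) : ℕ := if a = b then 2 else if a = b + 1 ∨ b = a + 1 then 1 else 0

def gam : List ℤ → ℕ
  | a :: b :: l => GZ a b * gam (b :: l)
  | _ => 1

def ext3 : List ℤ → List (List ℤ)
  | [] => []
  | a :: l => [(a - 1) :: a :: l, a :: a :: l, (a + 1) :: a :: l]

def walks : ℕ → List (List ℤ)
  | 0 => [[0]]
  | k + 1 => (walks k).flatMap ext3

def rng (l : List ℤ) : ℕ := (Finset.univ.image (fun i : Fin 9 => l.getD i 0)).card

def K : ℕ := ((walks 8).map (fun l => gam l * Nat.descFactorial 9 (rng l))).sum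

lemma K_lt : K < 9 ^ 9 := by decide +kernel

end Pool.Agent.H202Z.Du
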