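import Pool.Agent.H202Z.Du.Defs
import Pool.Agent.H202Z.Du.Count

open Matrix
open scoped ComplexOrder

namespace Pool.Agent.H202Z.Du

/-- operator norm for a general index type -/
noncomputable def opn {ι : Type} [Fintype ι] [DecidableEq ι] (M : Matrix ι ι ℂ) : ℝ :=
  ‖Matrix.toEuclideanCLM (n := ι) (𝕜 := ℂ) M‖

lemma opn_nonneg {ι : Type} [Fintype ι] [DecidableEq ι] (M : Matrix ι ι ℂ) : 0 ≤ opn M :=
  norm_nonneg _

lemma opn_le {ι : Type} [Fintype ι] [DecidableEq ι] (M : Matrix ι ι ℂ) (C : ℝ) (hC : 0 ≤ C)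
    (h : ∀ x : ι → ℂ, ∑ i, ‖(M *ᵥ x) i‖ ^ 2 ≤ C ^ 2 * ∑ i, ‖x i‖ ^ 2) : opn M ≤ C := by
  refine ContinuousLinearMap.opNorm_le_bound _ hC fun x => ?_
  refine (pow_le_pow_iff_left₀ (norm_nonneg _) (by positivity) two_ne_zero).1 ?_
  rw [mul_pow, EuclideanSpace.norm_sq_eq, EuclideanSpace.norm_sq_eq]
  exact h x.ofLp

lemma le_opn {ι : Type} [Fintype ι] [DecidableEq ι] (M : Matrix ι ι ℂ) (x : ι → ℂ) :
    ∑ i, ‖(M *ᵥ x) i‖ ^ 2 ≤ (opn M) ^ 2 * ∑ i, ‖x i‖ ^ 2 := by
  have h := (Matrix.toEuclideanCLM (n := ι) (𝕜 := ℂ) M).le_opNorm (WithLp.toLp 2 x)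
  have h2 := pow_le_pow_left₀ (norm_nonneg _) h 2
  rw [mul_pow, EuclideanSpace.norm_sq_eq, EuclideanSpace.norm_sq_eq] at h2
  exact h2

lemma opn_submatrix_le {ι κ : Type} [Fintype ι] [DecidableEq ι] [Fintype κ] [DecidableEq κ]
    (M : Matrix ι ι ℂ) (e : κ ≃ ι) : opn (M.submatrix e e) ≤ opn M := by
  refine opn_le _ _ (opn_nonneg M) fun x => ?_
  have h := le_opn M (x ∘ e.symm)
  rw [← e.sum_comp, ← e.sum_comp (fun i => ‖(x ∘ e.symm) i‖ ^ 2)] at h
  simp only [Function.comp, Equiv.symm_apply_apply] at h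
  rw [Matrix.submatrix_mulVec_equiv]
  exact h

lemma opn_submatrix {ι κ : Type} [Fintype ι] [DecidableEq ι] [Fintype κ] [DecidableEq κ]
    (M : Matrix ι ι ℂ) (e : κ ≃ ι) : opn (M.submatrix e e) = opn M := by
  refine le_antisymm (opn_submatrix_le M e) ?_
  have h := opn_submatrix_le (M.submatrix e e) e.symm
  simpa using h

/-- block rank one matrices -/
noncomputable def blk {P Q : Type} [DecidableEq P] (c : P → ℕ) (f g : P → Q → ℤ) :
    Matrix (P × Q) (P × Q) ℂ :=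
  fun p q => if p.1 = q.1 then (f p.1 p.2 : ℂ) * (c p.1 : ℂ) * (g p.1 q.2 : ℂ) else 0

lemma blk_mulVec {P Q : Type} [Fintype P] [Fintype Q] [DecidableEq P] (c : P → ℕ)
    (f g : P → Q → ℤ) (x : P × Q → ℂ) (p : P × Q) :
    (blk c f g *ᵥ x) p = (f p.1 p.2 : ℂ) * (c p.1 : ℂ) * ∑ b, (g p.1 b : ℂ) * x (p.1, b) := by
  simp only [Matrix.mulVec, dotProduct, blk]
  rw [Fintype.sum_prod_type, Finset.sum_eq_single p.1]
  · simp only [if_true, Finset.mul_sum]
    exact Finset.sum_congr rfl fun b _ => by ring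
  · intro π _ hπ
    simp [Ne.symm hπ]
  · simp

lemma blk_upper {P Q : Type} [Fintype P] [Fintype Q] [DecidableEq P] [DecidableEq Q] (c : P → ℕ)
    (f g : P → Q → ℤ) (hf : ∀ p, ∑ a, f p a * f p a = 2) (hg : ∀ p, ∑ a, g p a * g p a = 2)
    (C : ℕ) (hC : ∀ p, c p ≤ C) : opn (blk c f g) ≤ 2 * C := by
  refine opn_le _ _ (by positivity) fun x => ?_
  rw [Fintype.sum_prod_type, Fintype.sum_prod_type, Finset.mul_sum]
  refine Finset.sum_le_sum fun p _ => ?_
  simp only [blk_mulVec, norm_mul, mul_pow]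
  rw [← Finset.sum_mul, ← Finset.sum_mul]
  have h1 : ∑ a, ‖(f p a : ℂ)‖ ^ 2 = 2 := by
    have : ((∑ a, f p a * f p a : ℤ) : ℝ) = 2 := by rw [hf]; norm_num
    rw [← this]
    push_cast
    refine Finset.sum_congr rfl fun a _ => ?_
    rw [Complex.norm_intCast, sq_abs, sq]
  have h2 : ∑ a, ‖(g p a : ℂ)‖ ^ 2 = 2 := by
    have : ((∑ a, g p a * g p a : ℤ) : ℝ) = 2 := by rw [hg]; norm_num
    rw [← this]
    push_cast
    refine Finset.sum_congr rfl fun a _ => ?_
    rw [Complex.norm_intCast, sq_abs, sq]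
  have h3 : ‖∑ b, (g p b : ℂ) * x (p, b)‖ ^ 2 ≤ 2 * ∑ b, ‖x (p, b)‖ ^ 2 := by
    have h4 : ‖∑ b, (g p b : ℂ) * x (p, b)‖ ≤ ∑ b, ‖(g p b : ℂ)‖ * ‖x (p, b)‖ := by
      refine (norm_sum_le _ _).trans (le_of_eq ?_)
      exact Finset.sum_congr rfl fun b _ => norm_mul _ _
    refine (pow_le_pow_left₀ (norm_nonneg _) h4 2).trans ?_
    rw [← h2]
    exact Finset.sum_mul_sq_le_sq_mul_sq _ _ _
  have h5 : ‖(c p : ℂ)‖ ^ 2 ≤ (C : ℝ) ^ 2 := by
    rw [Complex.norm_natCast]
    exact pow_le_pow_left₀ (by positivity) (by exact_mod_cast hC p) 2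
  rw [h1]
  have h6 : 0 ≤ ∑ b, ‖x (p, b)‖ ^ 2 := Finset.sum_nonneg fun _ _ => by positivity
  calc 2 * ‖(c p : ℂ)‖ ^ 2 * ‖∑ b, (g p b : ℂ) * x (p, b)‖ ^ 2
      ≤ 2 * (C : ℝ) ^ 2 * (2 * ∑ b, ‖x (p, b)‖ ^ 2) := by gcongr
    _ = _ := by ring

lemma blk_lower {P Q : Type} [Fintype P] [Fintype Q] [DecidableEq P] [DecidableEq Q] (c : P → ℕ)
    (f g : P → Q → ℤ) (hf : ∀ p, ∑ a, f p a * f p a = 2) (hg : ∀ p, ∑ a, g p a * g p a = 2)
    (p0 : P) (hc : c p0 = 1) : 2 ≤ opn (blk c f g) := by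
  have h := le_opn (blk c f g) (fun q => if q.1 = p0 then (g p0 q.2 : ℂ) else 0)
  have h1 : ∑ a, ‖(f p0 a : ℂ)‖ ^ 2 = 2 := by
    have : ((∑ a, f p0 a * f p0 a : ℤ) : ℝ) = 2 := by rw [hf]; norm_num
    rw [← this]
    push_cast
    refine Finset.sum_congr rfl fun a _ => ?_
    rw [Complex.norm_intCast, sq_abs, sq]
  have h2 : ∑ a, ‖(g p0 a : ℂ)‖ ^ 2 = 2 := by
    have : ((∑ a, g p0 a * g p0 a : ℤ) : ℝ) = 2 := by rw [hg]; norm_num
    rw [← this]
    push_cast
    refine Finset.sum_congr rfl fun a _ => ?_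
    rw [Complex.norm_intCast, sq_abs, sq]
  have h3 : ∑ b, (g p0 b : ℂ) * (g p0 b : ℂ) = 2 := by
    have : ((∑ a, g p0 a * g p0 a : ℤ) : ℂ) = 2 := by rw [hg]; norm_num
    rw [← this]
    push_cast
    rfl
  have e1 : ∑ q : P × Q, ‖(if q.1 = p0 then (g p0 q.2 : ℂ) else 0)‖ ^ 2 = 2 := by
    rw [Fintype.sum_prod_type, Finset.sum_eq_single p0]
    · simpa using h2
    · intro p _ hp
      simp [hp]
    · simp
  have e2 : ∑ q : P × Q, ‖(blk c f g *ᵥ (fun q => if q.1 = p0 then (g p0 q.2 : ℂ) else 0)) q‖ ^ 2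
      = 8 := by
    rw [Fintype.sum_prod_type, Finset.sum_eq_single p0]
    · simp only [blk_mulVec, if_true, h3, hc, norm_mul, mul_pow]
      rw [← Finset.sum_mul, ← Finset.sum_mul, h1]
      norm_num
    · intro p _ hp
      simp [blk_mulVec, hp]
    · simp
  rw [e1, e2] at h
  have h0 := opn_nonneg (blk c f g)
  nlinarith

def u (k : Fin 9) (a : Fin 10) : ℤ := if (a : ℕ) = k ∨ (a : ℕ) = k + 1 then 1 else 0

lemma gram (k l : Fin 9) : ∑ a, u k a * u l a = (GZ ((k : ℕ) : ℤ) ((l : ℕ) : ℤ) : ℤ) := by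
  revert k l
  decide +kernel

lemma gram_self (k : Fin 9) : ∑ a, u k a * u k a = 2 := by
  rw [gram]; simp [GZ]

abbrev P9 := Equiv.Perm (Fin 9)

noncomputable def A0 (j : Fin 9) : Matrix (P9 × Fin 10) (P9 × Fin 10) ℂ :=
  blk (fun _ => 1) (fun π => u (π.symm j)) (fun π => u (π.symm j))

lemma prod_eq : ∀ (l : List (Fin 9)) (a : Fin 9), ((a :: l).map A0).prod =
    blk (fun π => gam (posl π (a :: l))) (fun π => u (π.symm a))
      (fun π => u (π.symm ((a :: l).getLast (List.cons_ne_nil _ _)))) := by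
  intro l
  induction l with
  | nil =>
    intro a
    simp [A0, posl, gam]
  | cons b l ih =>
    intro a
    rw [List.map_cons, List.prod_cons, ih b]
    ext p q
    have hm := blk_mulVec (fun _ => 1) (fun π : P9 => u (π.symm a)) (fun π => u (π.symm a))
      (fun r => blk (fun π => gam (posl π (b :: l))) (fun π : P9 => u (π.symm b))
        (fun π => u (π.symm ((b :: l).getLast (List.cons_ne_nil _ _)))) r q) p
    rw [Matrix.mul_apply]
    refine (Eq.trans rfl hm).trans ?_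
    simp only [blk]
    have hgr : ∑ c, (u (p.1.symm a) c : ℂ) * (u (p.1.symm b) c : ℂ) =
        (GZ ((p.1.symm a : ℕ) : ℤ) ((p.1.symm b : ℕ) : ℤ) : ℂ) := by
      have := congrArg (Int.cast : ℤ → ℂ) (gram (p.1.symm a) (p.1.symm b))
      push_cast at this
      exact this
    split_ifs with h
    · have e : gam (posl p.1 (a :: b :: l)) =
          GZ ((p.1.symm a : ℕ) : ℤ) ((p.1.symm b : ℕ) : ℤ) * gam (posl p.1 (b :: l)) := by
        simp [posl, gam]
      rw [e, List.getLast_cons (List.cons_ne_nil _ _)]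
      push_cast
      rw [← hgr]
      simp only [Finset.mul_sum, Finset.sum_mul]
      exact Finset.sum_congr rfl fun c _ => by ring
    · simp

lemma word_eq (j : Fin 9 → Fin 9) : (List.ofFn (fun i => A0 (j i))).prod =
    blk (fun π => gam (posl π (List.ofFn j))) (fun π => u (π.symm (j 0)))
      (fun π => u (π.symm (j 8))) := by
  have h := prod_eq (List.ofFn (fun i : Fin 8 => j i.succ)) (j 0)
  have e : List.ofFn j = j 0 :: List.ofFn (fun i : Fin 8 => j i.succ) := List.ofFn_succ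
  have e2 : List.ofFn (fun i => A0 (j i)) = (List.ofFn j).map A0 := by
    rw [List.map_ofFn]; rfl
  rw [e2, e, h]
  congr 2

lemma word_upper (j : Fin 9 → Fin 9) : opn (List.ofFn (fun i => A0 (j i))).prod ≤ 2 * F j := by
  rw [word_eq]
  refine blk_upper _ _ _ (fun _ => gram_self _) (fun _ => gram_self _) _ fun π => ?_
  exact Finset.le_sup (f := fun π : Equiv.Perm (Fin 9) => gam (posl π (List.ofFn j)))
    (Finset.mem_univ π)

lemma word_lower (j : Fin 9 → Fin 9) (hj : Function.Injective j) :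
    2 ≤ opn (List.ofFn (fun i => A0 (j i))).prod := by
  rw [word_eq]
  refine blk_lower _ _ _ (fun _ => gram_self _) (fun _ => gram_self _)
    (Equiv.ofBijective j (Finite.injective_iff_bijective.1 hj)) ?_
  have e : posl (Equiv.ofBijective j (Finite.injective_iff_bijective.1 hj)) (List.ofFn j) =
      List.ofFn (fun i : Fin 9 => ((i : ℕ) : ℤ)) := by
    unfold posl
    rw [List.map_ofFn]
    congr 1
    funext i
    simp
  rw [e]
  decide

lemma A0_psd (j : Fin 9) : (A0 j).PosSemidef := by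
  have h : A0 j = Matrix.of (fun (p : P9 × Fin 10) (π : P9) =>
      if p.1 = π then (u (π.symm j) p.2 : ℂ) else 0) *
      (Matrix.of (fun (p : P9 × Fin 10) (π : P9) =>
      if p.1 = π then (u (π.symm j) p.2 : ℂ) else 0))ᴴ := by
    ext p q
    rw [Matrix.mul_apply, Finset.sum_eq_single p.1]
    · simp only [A0, blk, Matrix.conjTranspose_apply, Matrix.of_apply, if_true]
      by_cases h : p.1 = q.1
      · simp [h]
      · simp [h, Ne.symm h]
    · intro π _ hπ
      simp [Ne.symm hπ]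
    · simp
  rw [h]
  exact Matrix.posSemidef_self_mul_conjTranspose _

def dim : ℕ := Fintype.card (P9 × Fin 10)

noncomputable def eqv : Fin dim ≃ P9 × Fin 10 := (Fintype.equivFin _).symm

noncomputable def A (j : Fin 9) : Matrix (Fin dim) (Fin dim) ℂ := (A0 j).submatrix eqv eqv

lemma dim_pos : 1 ≤ dim := Fintype.card_pos

lemma A_psd (j : Fin 9) : (A j).PosSemidef := (A0_psd j).submatrix _

lemma A_real (j : Fin 9) (a b : Fin dim) : (A j a b).im = 0 := by
  simp only [A, A0, blk, Matrix.submatrix_apply]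
  split_ifs <;> simp

lemma prod_submatrix {ι κ : Type} [Fintype ι] [DecidableEq ι] [Fintype κ] [DecidableEq κ]
    (e : κ ≃ ι) (l : List (Matrix ι ι ℂ)) :
    (l.map (fun M => M.submatrix e e)).prod = l.prod.submatrix e e := by
  induction l with
  | nil => simp
  | cons M l ih => rw [List.map_cons, List.prod_cons, ih, List.prod_cons, Matrix.submatrix_mul_equiv]

lemma spec_eq (j : Fin 9 → Fin 9) :
    specNorm (wordProd A j) = opn (List.ofFn (fun i => A0 (j i))).prod := by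
  rw [← opn_submatrix _ eqv, ← prod_submatrix, List.map_ofFn]
  rfl

lemma W_lt : W 9 A < 2 := by
  unfold W
  have h1 : ∑ j : Fin 9 → Fin 9, specNorm (wordProd A j) ≤ 2 * (K : ℝ) := by
    have h2 : ((∑ j, F j : ℕ) : ℝ) ≤ (K : ℝ) := by exact_mod_cast sum_F_le
    push_cast at h2
    refine le_trans (Finset.sum_le_sum fun j _ => (spec_eq j).le.trans (word_upper j)) ?_
    rw [← Finset.mul_sum]
    linarith
  have h3 : (K : ℝ) < ((9 : ℕ) : ℝ) ^ 9 := by exact_mod_cast K_lt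
  have h4 : (0 : ℝ) < ((9 : ℕ) : ℝ) ^ 9 := by positivity
  rw [one_div, inv_mul_lt_iff₀ h4]
  linarith

lemma D_ge : 2 ≤ D 9 A := by
  unfold D
  have hc : (Finset.univ.filter (fun j : Fin 9 → Fin 9 => Function.Injective j)).card =
      Nat.factorial 9 := by
    rw [← Fintype.card_subtype, Fintype.card_congr (Equiv.subtypeInjectiveEquivEmbedding _ _),
      Fintype.card_embedding_eq, Fintype.card_fin, Nat.descFactorial_self]
  have h1 : (Finset.univ.filter (fun j : Fin 9 → Fin 9 => Function.Injective j)).card • (2 : ℝ) ≤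
      ∑ j ∈ Finset.univ.filter (fun j : Fin 9 → Fin 9 => Function.Injective j),
        specNorm (wordProd A j) := by
    refine Finset.card_nsmul_le_sum _ _ _ fun j hj => ?_
    rw [spec_eq]
    exact word_lower j (Finset.mem_filter.1 hj).2
  rw [hc, nsmul_eq_mul] at h1
  have h4 : (0 : ℝ) < (Nat.factorial 9 : ℝ) := by exact_mod_cast Nat.factorial_pos 9
  rw [Nat.sub_self, Nat.factorial_zero, Nat.cast_one, one_div, le_inv_mul_iff₀ h4]
  exact h1

end Pool.Agent.H202Z.Du
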